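import Pool.Agent.Helper10.AB.GoalsF4

/-!
# Project AB, packet DTI: derivatives along the lines `σ = const`.
-/

open MeasureTheory Set Filter Topology
open scoped ContDiff

noncomputable section

namespace Pool.Agent.Helper89.AB

open Pool.Agent.Helper24.AB Pool.Agent.Helper10.AB

theorem isOpen_strip (b : ℝ) : IsOpen (strip b) :=
  isOpen_lt (continuous_abs.comp Complex.continuous_re) continuous_const

theorem line_eq (σ : ℝ) : (fun t : ℝ => (⟨σ, t⟩ : ℂ)) = fun t : ℝ => (σ : ℂ) + t • Complex.I := by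
  funext t
  apply Complex.ext <;> simp

theorem hasDerivAt_line (σ t : ℝ) : HasDerivAt (fun t : ℝ => (⟨σ, t⟩ : ℂ)) Complex.I t := by
  rw [line_eq]
  simpa using ((hasDerivAt_id t).smul_const Complex.I).const_add (σ : ℂ)

theorem contDiff_line (σ : ℝ) : ContDiff ℝ ∞ (fun t : ℝ => (⟨σ, t⟩ : ℂ)) := by
  rw [line_eq]
  exact contDiff_const.add (contDiff_id.smul contDiff_const)

theorem contDiffOn_dT {E : Type} [NormedAddCommGroup E] [NormedSpace ℝ E] {b : ℝ} {f : ℂ → E}
    (hf : ContDiffOn ℝ ∞ f (strip b)) : ContDiffOn ℝ ∞ (dT f) (strip b) := by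
  have h := hf.fderiv_of_isOpen (isOpen_strip b) (m := ∞) (by simp)
  exact h.clm_apply contDiffOn_const

theorem dti : S_DTI := by
  intro E _ _ b f hf σ hσ
  have hmem : ∀ t : ℝ, (⟨σ, t⟩ : ℂ) ∈ strip b := fun t => hσ
  refine ⟨?_, ?_⟩
  · have h := hf.comp (contDiff_line σ).contDiffOn (s := Set.univ) (fun t _ => hmem t)
    exact contDiffOn_univ.1 h
  · intro k
    induction k generalizing f with
    | zero =>
      intro t
      simp
    | succ k ih =>
      intro t
      have hd : deriv (fun t : ℝ => f ⟨σ, t⟩) = fun t : ℝ => (dT f) ⟨σ, t⟩ := by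
        funext t
        have h1 : DifferentiableAt ℝ f ⟨σ, t⟩ :=
          (hf.contDiffAt ((isOpen_strip b).mem_nhds (hmem t))).differentiableAt (by simp)
        exact (h1.hasFDerivAt.comp_hasDerivAt t (hasDerivAt_line σ t)).deriv
      rw [iteratedDeriv_succ', hd, Function.iterate_succ_apply]
      exact ih (dT f) (contDiffOn_dT hf) t

end Pool.Agent.Helper89.AB
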