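import Pool.Agent.Helper10.AB.GoalsF2

/-!
# Project AB, packet EQV: formulas for the coordinates `Pt`, `XX`.
-/

open MeasureTheory Set Filter Topology
open scoped ContDiff

noncomputable section

namespace Pool.Agent.Helper89.AB

open Pool.Agent.Helper24.AB Pool.Agent.Helper10.AB
open Pool.Agent.Helper15.AB (S_XI S_ATL XiI)

theorem sq5 : Real.sqrt 5 ^ 2 = 5 := Real.sq_sqrt (by norm_num)

theorem lam_pos : 0 < lam := by
  unfold lam
  positivity

theorem ph_lam : ph * lam = 2 * ph + 1 := by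
  unfold ph lam
  have := sq5
  nlinarith

theorem lam_eq : lam = ph + 1 := by
  unfold ph lam
  ring

theorem lam_inv : lam⁻¹ = ph' + 1 := by
  apply inv_eq_of_mul_eq_one_right
  unfold ph' lam
  have := sq5
  nlinarith

theorem ph'_lam : ph' * lam⁻¹ = 2 * ph' + 1 := by
  rw [lam_inv]
  unfold ph'
  have := sq5
  nlinarith

theorem exp_kap : Real.exp (kap * (2 * Real.pi)) = lam := by
  unfold kap
  rw [div_mul_cancel₀ _ (by positivity), Real.exp_log lam_pos]

theorem pt_eq (a A : ℝ) (s : ℝ → ℝ) (p : ℂ → ℝ) (y : YY) (θ : Fin 3 → ℝ) :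
    Pt a A s p y θ = ![⟨XX a A s p y 0, θ 0⟩, ⟨XX a A s p y 1, θ 1⟩,
      ⟨XX a A s p y 2, θ 2⟩, y.1] := by
  have h : (⟨y.1.re, y.1.im⟩ : ℂ) = y.1 := rfl
  funext i
  fin_cases i <;> simp [Pt, Xi, XX]

theorem xx_shift (a A : ℝ) (s : ℝ → ℝ) (p : ℂ → ℝ)
    (hp : ∀ w, p (w + 2 * Real.pi * Complex.I) = lam * p w) (y : YY) :
    XX a A s p (y.1 + 2 * Real.pi * Complex.I, y.2) 0 = 2 * XX a A s p y 0 + XX a A s p y 1 ∧
    XX a A s p (y.1 + 2 * Real.pi * Complex.I, y.2) 1 = XX a A s p y 0 + XX a A s p y 1 ∧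
    XX a A s p (y.1 + 2 * Real.pi * Complex.I, y.2) 2 = XX a A s p y 2 := by
  have h1 : (y.1 + 2 * Real.pi * Complex.I).re = y.1.re := by simp
  have h2 : (y.1 + 2 * Real.pi * Complex.I).im = y.1.im + 2 * Real.pi := by simp
  have e1 : Real.exp (kap * (y.1.im + 2 * Real.pi)) = Real.exp (kap * y.1.im) * lam := by
    rw [mul_add, Real.exp_add, exp_kap]
  have e2 : Real.exp (-(kap * (y.1.im + 2 * Real.pi))) = Real.exp (-(kap * y.1.im)) * lam⁻¹ := by
    rw [mul_add, neg_add, Real.exp_add, Real.exp_neg (kap * (2 * Real.pi)), exp_kap]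
  have h3 := ph_lam
  have h4 := ph'_lam
  have h5 := lam_eq
  have h6 := lam_inv
  refine ⟨?_, ?_, ?_⟩
  · simp only [XX, Matrix.cons_val_zero, Matrix.cons_val_one, h1, h2, e1, e2, hp]
    generalize Real.exp (kap * y.1.im) = E
    generalize Real.exp (-(kap * y.1.im)) = F
    generalize A + Real.sqrt (Atl a A s y.1.re) * y.2 0 = B
    calc ph * (E * lam * B - lam * p y.1) + ph' * (F * lam⁻¹ * (2 * A * y.2 1))
        = (ph * lam) * (E * B - p y.1) + (ph' * lam⁻¹) * (F * (2 * A * y.2 1)) := by ring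
      _ = _ := by rw [h3, h4]; ring
  · simp only [XX, Matrix.cons_val_zero, Matrix.cons_val_one, h1, h2, e1, e2, hp]
    generalize Real.exp (kap * y.1.im) = E
    generalize Real.exp (-(kap * y.1.im)) = F
    generalize A + Real.sqrt (Atl a A s y.1.re) * y.2 0 = B
    rw [h6, h5]
    ring
  · simp [XX]

theorem eqv (hXI : S_XI) : S_EQV := by
  intro a A δ₀ ρ₀ s p B hD
  obtain ⟨-, -, hI1, hI2, h3, -, h5, -⟩ := hXI a A s p hD.prof hD.pot.smooth
  have P8 := pt_eq a A s p
  have P5 : ∀ (y : YY) (θ : Fin 3 → ℝ), Pt a A s p y θ ∈ Omt a A s p ↔ y ∈ YS a (strip a) := by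
    intro y θ
    unfold Pt
    rw [h5]
    simp only [Fin.sum_univ_four, Matrix.cons_val_zero, Matrix.cons_val_one, Matrix.cons_val,
      YS, Bs, strip, Set.mem_ofPred_eq]
    constructor
    · intro h
      refine ⟨?_, by linarith⟩
      apply abs_lt_of_sq_lt_sq _ hD.prof.a_pos.le
      nlinarith [sq_nonneg (y.2 0), sq_nonneg (y.2 1), sq_nonneg (y.2 2)]
    · rintro ⟨-, h⟩
      linarith
  refine ⟨?_, ?_, ?_, ?_, P5, ?_, ?_, P8, ?_⟩
  · intro y θ
    obtain ⟨x0, x1, x2⟩ := xx_shift a A s p hD.pot.p1 y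
    rw [P8, P8, x0, x1, x2]
    funext i
    fin_cases i
    · apply Complex.ext <;> simp [gE, Q3]
    · apply Complex.ext <;> simp [gE, Q3]
    · apply Complex.ext <;> simp [gE, Q3]
    · apply Complex.ext <;> simp [gE]
  · intro y θ k
    rw [P8, P8]
    funext i
    fin_cases i
    · apply Complex.ext <;> simp [tE, tr2]
    · apply Complex.ext <;> simp [tE, tr2]
    · apply Complex.ext <;> simp [tE, tr2]
    · apply Complex.ext <;> simp [tE]
  · intro J y
    obtain ⟨x0, x1, x2⟩ := xx_shift a A s p hD.pot.p1 y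
    simp only [Jd, x0, x1, x2, Jn, Matrix.cons_val_zero, Matrix.cons_val_one, Matrix.cons_val]
    push_cast
    ring
  · intro J y θ
    rw [P8]
    unfold mon
    rw [Complex.ofReal_exp, ← Complex.exp_add]
    congr 1
    simp only [Jd, Matrix.cons_val_zero, Matrix.cons_val_one, Matrix.cons_val]
    apply Complex.ext <;> simp
  · intro P hP
    refine ⟨(P 3, ![(XiI a A s p P).1 0, (XiI a A s p P).1 1, (XiI a A s p P).1 2]),
      ![(P 0).im, (P 1).im, (P 2).im], ?_⟩
    have hPt : Pt a A s p (P 3, ![(XiI a A s p P).1 0, (XiI a A s p P).1 1, (XiI a A s p P).1 2])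
        ![(P 0).im, (P 1).im, (P 2).im] = P := by
      have h : ((![(XiI a A s p P).1 0, (XiI a A s p P).1 1, (XiI a A s p P).1 2, (P 3).re],
          ![(P 0).im, (P 1).im, (P 2).im, (P 3).im]) : (Fin 4 → ℝ) × (Fin 4 → ℝ)) =
          XiI a A s p P := by
        apply Prod.ext
        · funext i
          fin_cases i <;> simp [XiI]
        · funext i
          fin_cases i <;> simp [XiI]
      calc _ = Xi a A s p (![(XiI a A s p P).1 0, (XiI a A s p P).1 1, (XiI a A s p P).1 2,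
          (P 3).re], ![(P 0).im, (P 1).im, (P 2).im, (P 3).im]) := by simp [Pt]
        _ = P := by rw [h, hI2]
    refine ⟨?_, rfl, hPt⟩
    rw [← P5 _ ![(P 0).im, (P 1).im, (P 2).im], hPt]
    exact hP
  · intro J y
    simp only [Jd, XX, uf, vf, alp, alp', Matrix.cons_val_zero, Matrix.cons_val_one,
      Matrix.cons_val]
    ring
  · intro y θ
    unfold Fund
    rw [Set.mem_ofPred_eq, P5, P8]
    simp only [Fin.forall_fin_succ, Fin.succ_zero_eq_one, Matrix.cons_val_zero,
      Matrix.cons_val_one, Matrix.cons_val, YS, cell, strip, Set.mem_ofPred_eq, T3, Set.mem_pi,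
      Set.mem_univ, Set.mem_Ico]
    simp
    tauto

end Pool.Agent.Helper89.AB
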