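import Pool.Agent.Helper10.AB.GoalsF4

/-!
# Project AB, packet MDG: the modes of an absolutely convergent Fourier series.
-/

open MeasureTheory Set Filter Topology
open scoped ContDiff

noncomputable section

namespace Pool.Agent.Helper89.AB

open Pool.Agent.Helper24.AB Pool.Agent.Helper10.AB

/-- the character `e^{iJ·θ}` -/
def chr (J : Fin 3 → ℤ) (θ : Fin 3 → ℝ) : ℂ := Complex.exp (Complex.I * (Jd J θ : ℝ))

theorem continuous_Jd (J : Fin 3 → ℤ) : Continuous (Jd J) := by
  unfold Jd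
  fun_prop

theorem continuous_chr (J : Fin 3 → ℤ) : Continuous (chr J) := by
  unfold chr
  have := continuous_Jd J
  fun_prop

theorem norm_chr (J : Fin 3 → ℤ) (θ : Fin 3 → ℝ) : ‖chr J θ‖ = 1 := by
  unfold chr
  rw [mul_comm, Complex.norm_exp_ofReal_mul_I]

theorem chr_tr2 (J : Fin 3 → ℤ) (θ : Fin 3 → ℝ) (k : Fin 3 → ℤ) :
    chr J (tr2 θ k) = chr J θ := by
  unfold chr
  have h : Complex.I * (Jd J (tr2 θ k) : ℝ) = Complex.I * (Jd J θ : ℝ) +
      ((J 0 * k 0 + J 1 * k 1 + J 2 * k 2 : ℤ) : ℂ) * (2 * Real.pi * Complex.I) := by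
    simp only [Jd, tr2]
    push_cast
    ring
  rw [h, Complex.exp_add, Complex.exp_int_mul_two_pi_mul_I, mul_one]

theorem chr_prod (J : Fin 3 → ℤ) (θ : Fin 3 → ℝ) :
    chr J θ = ∏ i, Complex.exp (Complex.I * (J i : ℂ) * (θ i : ℂ)) := by
  unfold chr
  rw [← Complex.exp_sum]
  congr 1
  simp only [Jd, Fin.sum_univ_three]
  push_cast
  ring

theorem int1 (m : ℤ) : ∫ x in Set.Ico (0 : ℝ) (2 * Real.pi),
    Complex.exp (Complex.I * (m : ℂ) * (x : ℂ)) = if m = 0 then (2 * Real.pi : ℂ) else 0 := by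
  rw [MeasureTheory.integral_Ico_eq_integral_Ioc,
    ← intervalIntegral.integral_of_le (by positivity)]
  split_ifs with h
  · subst h
    simp
  · have hc : Complex.I * (m : ℂ) ≠ 0 := mul_ne_zero Complex.I_ne_zero (by exact_mod_cast h)
    rw [integral_exp_mul_complex hc]
    have h1 : Complex.I * (m : ℂ) * ((2 * Real.pi : ℝ) : ℂ) = (m : ℂ) * (2 * Real.pi * Complex.I) := by
      push_cast
      ring
    rw [h1, Complex.exp_int_mul_two_pi_mul_I]
    simp

theorem int3 (J : Fin 3 → ℤ) : ∫ θ in T3, chr J θ =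
    if J = 0 then ((2 * Real.pi) ^ 3 : ℂ) else 0 := by
  have h0 : (volume : Measure (Fin 3 → ℝ)).restrict T3 =
      Measure.pi fun _ : Fin 3 => (volume : Measure ℝ).restrict (Set.Ico 0 (2 * Real.pi)) := by
    unfold T3
    exact Measure.restrict_pi_pi (μ := fun _ : Fin 3 => (volume : Measure ℝ))
      (fun _ => Set.Ico 0 (2 * Real.pi))
  rw [h0]
  simp_rw [chr_prod]
  rw [MeasureTheory.integral_fintype_prod_eq_prod
    (f := fun (i : Fin 3) (x : ℝ) => Complex.exp (Complex.I * (J i : ℂ) * (x : ℂ)))]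
  simp_rw [int1]
  split_ifs with h
  · subst h
    simp
  · obtain ⟨i, hi⟩ := Function.ne_iff.1 h
    apply Finset.prod_eq_zero (Finset.mem_univ i)
    have hi' : J i ≠ 0 := hi
    rw [if_neg hi']

theorem vol_T3 : volume T3 < ⊤ := by
  unfold T3
  rw [volume_pi_pi]
  exact ENNReal.prod_lt_top (fun i _ => by
    rw [Real.volume_Ico]
    exact ENNReal.ofReal_lt_top)

theorem chr_mul (J J' : Fin 3 → ℤ) (θ : Fin 3 → ℝ) :
    chr J' θ * Complex.exp (-(Complex.I * (Jd J θ : ℝ))) = chr (J' - J) θ := by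
  unfold chr
  rw [← Complex.exp_add]
  congr 1
  simp only [Jd, Pi.sub_apply]
  push_cast
  ring

theorem mdg : S_MDG := by
  intro c hc
  change CPer (fun θ => ∑' J, c J * chr J θ) ∧ ∀ J, tm J (fun θ => ∑' J, c J * chr J θ) = c J
  refine ⟨⟨?_, ?_⟩, ?_⟩
  · refine continuous_tsum (fun J => continuous_const.mul (continuous_chr J)) hc ?_
    intro J θ
    rw [norm_mul, norm_chr, mul_one]
  · intro θ k
    simp_rw [chr_tr2]
  · intro J
    unfold tm
    have h1 : ∀ θ : Fin 3 → ℝ, (∑' J', c J' * chr J' θ) * Complex.exp (-(Complex.I * (Jd J θ : ℝ))) =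
        ∑' J', c J' * chr (J' - J) θ := by
      intro θ
      rw [← tsum_mul_right]
      congr 1
      funext J'
      rw [mul_assoc, chr_mul]
    simp_rw [h1]
    have : IsFiniteMeasure ((volume : Measure (Fin 3 → ℝ)).restrict T3) :=
      ⟨by rw [Measure.restrict_apply_univ]; exact vol_T3⟩
    have hint : ∀ J' : Fin 3 → ℤ, Integrable (fun θ => c J' * chr (J' - J) θ)
        ((volume : Measure (Fin 3 → ℝ)).restrict T3) := by
      intro J'
      refine Integrable.of_bound
        (continuous_const.mul (continuous_chr _)).aestronglyMeasurable ‖c J'‖ ?_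
      exact Filter.Eventually.of_forall fun θ => by rw [norm_mul, norm_chr, mul_one]
    have hn : ∀ J' : Fin 3 → ℤ, ∫ θ in T3, ‖c J' * chr (J' - J) θ‖ =
        ‖c J'‖ * (volume.real T3) := by
      intro J'
      simp_rw [norm_mul, norm_chr, mul_one]
      rw [setIntegral_const, smul_eq_mul, mul_comm]
    have hs : Summable fun J' : Fin 3 → ℤ => ∫ θ in T3, ‖c J' * chr (J' - J) θ‖ := by
      simp_rw [hn]
      exact hc.mul_right _
    rw [← MeasureTheory.integral_tsum_of_summable_integral_norm hint hs, tsum_eq_single J]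
    · rw [integral_const_mul, sub_self, int3, if_pos rfl]
      have hpi : (Real.pi : ℂ) ≠ 0 := by exact_mod_cast Real.pi_ne_zero
      push_cast
      field_simp
    · intro J' hJ'
      rw [integral_const_mul, int3, if_neg (sub_ne_zero.2 hJ'), mul_zero]

end Pool.Agent.Helper89.AB
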