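import Pool.Agent.Helper15.AB.GoalsG

/-! # AB / PSHL (MP_1ef41b_an): a `C²` plurisubharmonic function has a nonnegative Levi form -/

open MeasureTheory Set Filter Topology
open scoped ContDiff

noncomputable section

namespace Pool.Agent.Helper89.AB

open Pool.Agent.Helper24.AB Pool.Agent.Helper15.AB

theorem pshl (hT : S_TAYL) (hL : S_LAPC) : S_PSHL := by
  intro n Ω u hΩ hu hpsh z hz ξ
  set γ : ℂ → (Fin n → ℂ) := fun s => z + s • ξ with hγ
  set f : ℂ → ℝ := fun s => u (γ s) with hf
  have γ0 : γ 0 = z := by simp [hγ]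
  have hγd : Differentiable ℂ γ := by
    intro s
    exact (differentiableAt_const z).add ((differentiableAt_id).smul_const ξ)
  have hγder : deriv γ 0 = ξ := by
    have h : HasDerivAt γ ((1 : ℂ) • ξ) 0 := ((hasDerivAt_id (0 : ℂ)).smul_const ξ).const_add z
    rw [h.deriv, one_smul]
  have huz : ContDiffAt ℝ 2 u (γ 0) := by
    rw [γ0]; exact hu.contDiffAt (hΩ.mem_nhds hz)
  have hlap : lapC f 0 = leviForm u z ξ := by
    have := hL univ γ u 0 isOpen_univ hγd.differentiableOn (mem_univ _) huz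
    rw [γ0, hγder] at this
    exact this
  have hγr : ContDiff ℝ 2 γ := by
    have : γ = fun s => z + s • ξ := rfl
    rw [this]
    exact contDiff_const.add (contDiff_id.smul contDiff_const)
  have hfc : ContDiffAt ℝ 2 f 0 := huz.comp (0 : ℂ) hγr.contDiffAt
  have hlim := hT f 0 hfc
  rw [hlap] at hlim
  obtain ⟨ε, hε, hball⟩ := Metric.isOpen_iff.1 hΩ z hz
  have hr0 : 0 < ε / (‖ξ‖ + 1) := by positivity
  have hev : ∀ᶠ r : ℝ in 𝓝[>] 0, 0 ≤ (Real.circleAverage f 0 r - f 0) / r ^ 2 := by
    filter_upwards [Ioo_mem_nhdsGT hr0] with r hr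
    have hrp : 0 < r := hr.1
    refine div_nonneg (sub_nonneg.2 ?_) (by positivity)
    have h1 := hpsh.2 z ((r : ℂ) • ξ) (fun s hs => hball (by
      rw [Metric.mem_ball, dist_eq_norm, add_sub_cancel_left, norm_smul, norm_smul,
        Complex.norm_real, Real.norm_eq_abs, abs_of_pos hrp]
      have h2 : r * (‖ξ‖ + 1) < ε := (lt_div_iff₀ (by positivity)).1 hr.2
      have h3 : ‖s‖ * (r * ‖ξ‖) ≤ 1 * (r * ‖ξ‖) :=
        mul_le_mul_of_nonneg_right hs (by positivity)
      nlinarith [norm_nonneg ξ]))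
    have h4 : f 0 = u z := by simp only [hf, γ0]
    rw [h4]
    refine h1.trans (le_of_eq ?_)
    rw [Real.circleAverage, smul_eq_mul]
    congr 1
    refine intervalIntegral.integral_congr fun θ _ => ?_
    simp only [hf, hγ, circleMap, zero_add]
    rw [smul_smul, mul_comm (Complex.exp _)]
  have := ge_of_tendsto hlim hev
  linarith

end Pool.Agent.Helper89.AB
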