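import Pool.Agent.Helper24.AB.AN.Goals

/-! # AB / AN / ID (MP_1ef41b_an): the Bochner identity on the strip -/

open MeasureTheory Set Filter Topology
open scoped ContDiff

noncomputable section

namespace Pool.Agent.Helper89.AB

open Pool.Agent.Helper24.AB

theorem isOpen_strip (a : ℝ) : IsOpen (strip a) := by
  have : strip a = (fun w : ℂ => |w.re|) ⁻¹' Iio a := rfl
  rw [this]
  exact (Complex.continuous_re.abs).isOpen_preimage _ isOpen_Iio

variable {E : Type*} [NormedAddCommGroup E] [NormedSpace ℝ E]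

theorem cd_fderiv {f : ℂ → E} {U : Set ℂ} (hU : IsOpen U) (hf : ContDiffOn ℝ ∞ f U) (v : ℂ) :
    ContDiffOn ℝ ∞ (fun w => fderiv ℝ f w v) U := by
  have h1 : ContDiffOn ℝ ∞ (fderiv ℝ f) U := hf.fderiv_of_isOpen hU (by simp)
  exact h1.clm_apply contDiffOn_const

theorem cd_dS {f : ℂ → E} {U : Set ℂ} (hU : IsOpen U) (hf : ContDiffOn ℝ ∞ f U) :
    ContDiffOn ℝ ∞ (dS f) U := cd_fderiv hU hf 1

theorem cd_dT {f : ℂ → E} {U : Set ℂ} (hU : IsOpen U) (hf : ContDiffOn ℝ ∞ f U) :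
    ContDiffOn ℝ ∞ (dT f) U := cd_fderiv hU hf Complex.I

theorem diffAt {f : ℂ → E} {U : Set ℂ} (hU : IsOpen U) (hf : ContDiffOn ℝ ∞ f U) {w : ℂ}
    (hw : w ∈ U) : DifferentiableAt ℝ f w :=
  (hf.contDiffAt (hU.mem_nhds hw)).differentiableAt (by simp)

/-- derivative along a line -/
theorem ln {f : ℂ → E} {w : ℂ} (v : ℂ) (hf : DifferentiableAt ℝ f w) :
    HasDerivAt (fun s : ℝ => f (w + s • v)) (fderiv ℝ f w v) 0 :=
  hf.hasFDerivAt.hasLineDerivAt v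

theorem ln_eq {f : ℂ → E} {w v : ℂ} {e : E} (hf : DifferentiableAt ℝ f w)
    (h : HasDerivAt (fun s : ℝ => f (w + s • v)) e 0) : fderiv ℝ f w v = e :=
  (ln v hf).unique h

theorem symm2 {φ : ℂ → E} {U : Set ℂ} (hU : IsOpen U) (hφ : ContDiffOn ℝ ∞ φ U) {w : ℂ}
    (hw : w ∈ U) : dS (dT φ) w = dT (dS φ) w := by
  have h1 : ContDiffAt ℝ ∞ φ w := hφ.contDiffAt (hU.mem_nhds hw)
  have h2 : IsSymmSndFDerivAt ℝ φ w := h1.isSymmSndFDerivAt (by
    rw [minSmoothness_of_isRCLikeNormedField]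
    exact WithTop.coe_le_coe.2 (le_top : (2 : ℕ∞) ≤ ⊤))
  have h3 : DifferentiableAt ℝ (fderiv ℝ φ) w := by
    have : ContDiffOn ℝ ∞ (fderiv ℝ φ) U := hφ.fderiv_of_isOpen hU (by simp)
    exact diffAt hU this hw
  have h4 : ∀ v, HasFDerivAt (fun w => fderiv ℝ φ w v) ((fderiv ℝ (fderiv ℝ φ) w).flip v) w := by
    intro v
    have := h3.hasFDerivAt.clm_apply (hasFDerivAt_const v w)
    refine this.congr_fderiv ?_
    ext x
    simp
  unfold dS dT
  rw [(h4 Complex.I).fderiv, (h4 1).fderiv]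
  simp only [ContinuousLinearMap.flip_apply]
  exact h2 _ _

omit [NormedSpace ℝ E] in
theorem integrable_of {G : ℂ → E} {a : ℝ} {K : Set ℂ} (hK : IsCompact K) (hKs : K ⊆ strip a)
    (hG : ContinuousOn G (strip a)) (h0 : ∀ w ∉ K, G w = 0) : Integrable G := by
  have h1 : IntegrableOn G K := (hG.mono hKs).integrableOn_compact hK
  rwa [integrableOn_iff_integrable_of_support_subset] at h1
  intro w hw
  by_contra h
  exact hw (h0 w h)

/-- the algebraic identity -/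
theorem alg (x y u Z : ℂ) (s t Ss Tt : ℝ) :
    (((4 * ‖-((x - Complex.I * y) / 2) + ((s : ℂ) - Complex.I * (t : ℂ)) / 2 * u‖ ^ 2 : ℝ)) : ℂ) =
      ((‖x + Complex.I * (t : ℂ) * u‖ ^ 2 + ‖y - Complex.I * (s : ℂ) * u‖ ^ 2 +
        (Ss + Tt) * ‖u‖ ^ 2 : ℝ) : ℂ) +
      ((Complex.I * (x * starRingEnd ℂ y + u * starRingEnd ℂ Z)) -
        ((Ss : ℂ) * (u * starRingEnd ℂ u) + (s : ℂ) * (x * starRingEnd ℂ u + u * starRingEnd ℂ x))) +
      ((-Complex.I * (y * starRingEnd ℂ x + u * starRingEnd ℂ Z)) -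
        ((Tt : ℂ) * (u * starRingEnd ℂ u) + (t : ℂ) * (y * starRingEnd ℂ u + u * starRingEnd ℂ y))) := by
  have hn : ∀ z : ℂ, ((‖z‖ ^ 2 : ℝ) : ℂ) = z * starRingEnd ℂ z := fun z => by
    rw [Complex.mul_conj, Complex.normSq_eq_norm_sq]
  push_cast
  have hn' : ∀ z : ℂ, (‖z‖ : ℂ) ^ 2 = z * starRingEnd ℂ z := fun z => by
    rw [← hn z]; push_cast; rfl
  rw [hn', hn', hn', hn']
  simp only [map_add, map_sub, map_mul, map_neg, map_div₀, Complex.conj_I, Complex.conj_ofReal,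
    map_ofNat]
  ring_nf
  simp only [Complex.I_sq]
  ring

theorem id_ : S_ID := by
  intro a Φ hΦ φ hφ
  obtain ⟨hφs, hφc, hφK⟩ := hφ
  set K : Set ℂ := tsupport φ with hK
  have hKc : IsCompact K := hφc
  have hU := isOpen_strip a
  have φU : ContDiffOn ℝ ∞ φ (strip a) := hφs.contDiffOn
  -- vanishing outside `K`
  have z0 : ∀ w ∉ K, φ w = 0 := fun w hw => image_eq_zero_of_notMem_tsupport hw
  have zf : ∀ w ∉ K, ∀ᶠ w' in 𝓝 w, φ w' = 0 := by
    intro w hw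
    have : Kᶜ ∈ 𝓝 w := (isClosed_tsupport φ).isOpen_compl.mem_nhds hw
    filter_upwards [this] with w' hw'
    exact z0 w' hw'
  have zd : ∀ v, ∀ w ∉ K, fderiv ℝ φ w v = 0 := by
    intro v w hw
    have h1 : φ =ᶠ[𝓝 w] fun _ => 0 := zf w hw
    rw [h1.fderiv_eq]
    simp
  -- the smooth functions
  have c0 : ContinuousOn φ (strip a) := φU.continuousOn
  have cS : ContDiffOn ℝ ∞ (dS φ) (strip a) := cd_dS hU φU
  have cT : ContDiffOn ℝ ∞ (dT φ) (strip a) := cd_dT hU φU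
  have pS : ContDiffOn ℝ ∞ (dS Φ) (strip a) := cd_dS hU hΦ
  have pT : ContDiffOn ℝ ∞ (dT Φ) (strip a) := cd_dT hU hΦ
  have pSS : ContDiffOn ℝ ∞ (dS (dS Φ)) (strip a) := cd_dS hU pS
  have pTT : ContDiffOn ℝ ∞ (dT (dT Φ)) (strip a) := cd_dT hU pT
  -- the two vector fields
  set F1 : ℂ → ℂ := fun w => Complex.I * (φ w * starRingEnd ℂ (dT φ w)) -
    ((dS Φ w : ℝ) : ℂ) * (φ w * starRingEnd ℂ (φ w)) with hF1
  set F2 : ℂ → ℂ := fun w => -Complex.I * (φ w * starRingEnd ℂ (dS φ w)) -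
    ((dT Φ w : ℝ) : ℂ) * (φ w * starRingEnd ℂ (φ w)) with hF2
  have hconj : ContDiff ℝ ∞ (fun z : ℂ => starRingEnd ℂ z) := Complex.conjCLE.contDiff
  have hof : ContDiff ℝ ∞ (fun x : ℝ => (x : ℂ)) := Complex.ofRealCLM.contDiff
  have hcφ : ContDiffOn ℝ ∞ (fun w => starRingEnd ℂ (φ w)) (strip a) := hconj.comp_contDiffOn φU
  have hcS : ContDiffOn ℝ ∞ (fun w => starRingEnd ℂ (dS φ w)) (strip a) := hconj.comp_contDiffOn cS
  have hcT : ContDiffOn ℝ ∞ (fun w => starRingEnd ℂ (dT φ w)) (strip a) := hconj.comp_contDiffOn cT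
  have hpS : ContDiffOn ℝ ∞ (fun w => ((dS Φ w : ℝ) : ℂ)) (strip a) := hof.comp_contDiffOn pS
  have hpT : ContDiffOn ℝ ∞ (fun w => ((dT Φ w : ℝ) : ℂ)) (strip a) := hof.comp_contDiffOn pT
  have F1U : ContDiffOn ℝ ∞ F1 (strip a) :=
    (contDiffOn_const.mul (φU.mul hcT)).sub (hpS.mul (φU.mul hcφ))
  have F2U : ContDiffOn ℝ ∞ F2 (strip a) :=
    (contDiffOn_const.mul (φU.mul hcS)).sub (hpT.mul (φU.mul hcφ))
  have F1z : ∀ w ∉ K, F1 =ᶠ[𝓝 w] fun _ => 0 := by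
    intro w hw
    filter_upwards [zf w hw] with w' hw'
    simp only [hF1]; rw [hw']; simp
  have F2z : ∀ w ∉ K, F2 =ᶠ[𝓝 w] fun _ => 0 := by
    intro w hw
    filter_upwards [zf w hw] with w' hw'
    simp only [hF2]; rw [hw']; simp
  -- integrals of derivatives vanish
  have gen : ∀ (F : ℂ → ℂ) (v : ℂ), ContDiffOn ℝ ∞ F (strip a) →
      (∀ w ∉ K, F =ᶠ[𝓝 w] fun _ => 0) →
      Integrable (fun w => fderiv ℝ F w v) ∧ (∀ w ∉ K, fderiv ℝ F w v = 0) ∧
        (∫ w, fderiv ℝ F w v) = 0 := by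
    intro F v hF hz
    have d0 : ∀ w ∉ K, fderiv ℝ F w v = 0 := by
      intro w hw
      rw [(hz w hw).fderiv_eq]
      simp
    have hI : Integrable (fun w => fderiv ℝ F w v) :=
      integrable_of hKc hφK (cd_fderiv hU hF v).continuousOn d0
    have hIF : Integrable F := integrable_of hKc hφK hF.continuousOn fun w hw => (hz w hw).self_of_nhds
    refine ⟨hI, d0, ?_⟩
    have hdF : ∀ w, DifferentiableAt ℝ F w := by
      intro w
      by_cases hw : w ∈ K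
      · exact diffAt hU hF (hφK hw)
      · exact (differentiableAt_const (0 : ℂ)).congr_of_eventuallyEq (hz w hw)
    have h := integral_mul_fderiv_eq_neg_fderiv_mul_of_integrable (μ := (volume : Measure ℂ))
      (f := fun _ : ℂ => (1 : ℂ)) (g := F) (v := v) (by simp) (by simpa using hI)
      (by simpa using hIF) (fun _ _ => differentiableAt_const _) (fun w _ => hdF w)
    simpa using h
  obtain ⟨i1, z1, e1⟩ := gen F1 1 F1U F1z
  obtain ⟨i2, z2, e2⟩ := gen F2 Complex.I F2U F2z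
  -- the pointwise identity
  have key : ∀ w ∈ strip a, ((4 * ‖Dop Φ φ w‖ ^ 2 : ℝ) : ℂ) =
      ((gA Φ φ w + lapC Φ w * ‖φ w‖ ^ 2 : ℝ) : ℂ) + fderiv ℝ F1 w 1 + fderiv ℝ F2 w Complex.I := by
    intro w hw
    have a0 : ∀ v, HasDerivAt (fun s : ℝ => φ (w + s • v)) (fderiv ℝ φ w v) 0 := fun v =>
      ln v (diffAt hU φU hw)
    have ac : ∀ v, HasDerivAt (fun s : ℝ => starRingEnd ℂ (φ (w + s • v))) (starRingEnd ℂ (fderiv ℝ φ w v)) 0 :=
      fun v => (a0 v).star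
    have aT : HasDerivAt (fun s : ℝ => starRingEnd ℂ (dT φ (w + s • (1 : ℂ)))) (starRingEnd ℂ (dS (dT φ) w)) 0 :=
      (ln 1 (diffAt hU cT hw)).star
    have aS : HasDerivAt (fun s : ℝ => starRingEnd ℂ (dS φ (w + s • Complex.I))) (starRingEnd ℂ (dT (dS φ) w)) 0 :=
      (ln Complex.I (diffAt hU cS hw)).star
    have bS : HasDerivAt (fun s : ℝ => ((dS Φ (w + s • (1 : ℂ)) : ℝ) : ℂ))
        ((dS (dS Φ) w : ℝ) : ℂ) 0 := (ln 1 (diffAt hU pS hw)).ofReal_comp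
    have bT : HasDerivAt (fun s : ℝ => ((dT Φ (w + s • Complex.I) : ℝ) : ℂ))
        ((dT (dT Φ) w : ℝ) : ℂ) 0 := (ln Complex.I (diffAt hU pT hw)).ofReal_comp
    have d1 : fderiv ℝ F1 w 1 = Complex.I * (dS φ w * starRingEnd ℂ (dT φ w) + φ w * starRingEnd ℂ (dS (dT φ) w)) -
        (((dS (dS Φ) w : ℝ) : ℂ) * (φ w * starRingEnd ℂ (φ w)) +
          ((dS Φ w : ℝ) : ℂ) * (dS φ w * starRingEnd ℂ (φ w) + φ w * starRingEnd ℂ (dS φ w))) := by
      refine ln_eq (diffAt hU F1U hw) ?_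
      have h := (((a0 1).mul aT).const_mul Complex.I).sub (bS.mul ((a0 1).mul (ac 1)))
      refine (HasDerivAt.congr_deriv h ?_)
      simp only [zero_smul, add_zero, Pi.mul_apply]
      rfl
    have d2 : fderiv ℝ F2 w Complex.I =
        -Complex.I * (dT φ w * starRingEnd ℂ (dS φ w) + φ w * starRingEnd ℂ (dS (dT φ) w)) -
        (((dT (dT Φ) w : ℝ) : ℂ) * (φ w * starRingEnd ℂ (φ w)) +
          ((dT Φ w : ℝ) : ℂ) * (dT φ w * starRingEnd ℂ (φ w) + φ w * starRingEnd ℂ (dT φ w))) := by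
      rw [symm2 hU φU hw]
      refine ln_eq (diffAt hU F2U hw) ?_
      have h := (((a0 Complex.I).mul aS).const_mul (-Complex.I)).sub
        (bT.mul ((a0 Complex.I).mul (ac Complex.I)))
      refine (HasDerivAt.congr_deriv h ?_)
      simp only [zero_smul, add_zero, Pi.mul_apply]
      rfl
    have hdz : dz (fun w => (Φ w : ℂ)) w =
        (((dS Φ w : ℝ) : ℂ) - Complex.I * ((dT Φ w : ℝ) : ℂ)) / 2 := by
      have hd : DifferentiableAt ℝ Φ w := diffAt hU hΦ hw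
      have hdc : DifferentiableAt ℝ (fun w => (Φ w : ℂ)) w :=
        diffAt hU (hof.comp_contDiffOn hΦ) hw
      have h1 : ∀ v, fderiv ℝ (fun w => (Φ w : ℂ)) w v = ((fderiv ℝ Φ w v : ℝ) : ℂ) := fun v =>
        ln_eq hdc (ln v hd).ofReal_comp
      unfold dz dS dT
      rw [h1, h1]
    rw [d1, d2, Dop, hdz]
    have := alg (dS φ w) (dT φ w) (φ w) (dS (dT φ) w) (dS Φ w) (dT Φ w) (dS (dS Φ) w) (dT (dT Φ) w)
    have e : -dz φ w = -((dS φ w - Complex.I * dT φ w) / 2) := rfl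
    rw [e, this]
    rfl
  -- integrability of both sides
  have hDz : ∀ w ∉ K, Dop Φ φ w = 0 := by
    intro w hw
    unfold Dop dz dS dT
    rw [zd, zd, z0 w hw]
    · simp
    · exact hw
    · exact hw
  have hGz : ∀ w ∉ K, gA Φ φ w + lapC Φ w * ‖φ w‖ ^ 2 = 0 := by
    intro w hw
    unfold gA dS dT
    rw [zd, zd, z0 w hw]
    · simp
    · exact hw
    · exact hw
  have hpc : ContDiffOn ℝ ∞ (fun w => (Φ w : ℂ)) (strip a) := hof.comp_contDiffOn hΦ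
  have cD : ContinuousOn (fun w => ‖Dop Φ φ w‖ ^ 2) (strip a) := by
    have h1 : ContinuousOn (dz φ) (strip a) := by
      have := cS.continuousOn
      have := cT.continuousOn
      unfold dz
      fun_prop
    have h2 : ContinuousOn (dz fun w => (Φ w : ℂ)) (strip a) := by
      have := (cd_dS hU hpc).continuousOn
      have := (cd_dT hU hpc).continuousOn
      unfold dz
      fun_prop
    unfold Dop
    fun_prop
  have cG : ContinuousOn (fun w => gA Φ φ w + lapC Φ w * ‖φ w‖ ^ 2) (strip a) := by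
    have h1 := cS.continuousOn
    have h2 := cT.continuousOn
    have h3 := hpS.continuousOn
    have h4 := hpT.continuousOn
    have h5 := pSS.continuousOn
    have h6 := pTT.continuousOn
    unfold gA lapC
    fun_prop
  have iD : Integrable (fun w => ‖Dop Φ φ w‖ ^ 2) :=
    integrable_of hKc hφK cD fun w hw => by rw [hDz w hw]; simp
  have iG : Integrable (fun w => gA Φ φ w + lapC Φ w * ‖φ w‖ ^ 2) :=
    integrable_of hKc hφK cG hGz
  have r1 : ∫ w in strip a, ‖Dop Φ φ w‖ ^ 2 = ∫ w, ‖Dop Φ φ w‖ ^ 2 :=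
    setIntegral_eq_integral_of_forall_compl_eq_zero fun w hw => by
      rw [hDz w fun h => hw (hφK h)]; simp
  have r2 : ∫ w in strip a, (gA Φ φ w + lapC Φ w * ‖φ w‖ ^ 2) =
      ∫ w, (gA Φ φ w + lapC Φ w * ‖φ w‖ ^ 2) :=
    setIntegral_eq_integral_of_forall_compl_eq_zero fun w hw => hGz w fun h => hw (hφK h)
  have key' : ∀ w, ((4 * ‖Dop Φ φ w‖ ^ 2 : ℝ) : ℂ) =
      (((gA Φ φ w + lapC Φ w * ‖φ w‖ ^ 2 : ℝ) : ℂ) + fderiv ℝ F1 w 1) +
        fderiv ℝ F2 w Complex.I := by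
    intro w
    by_cases hw : w ∈ K
    · exact key w (hφK hw)
    · rw [hDz w hw, hGz w hw, z1 w hw, z2 w hw]
      simp
  have iGc : Integrable (fun w => ((gA Φ φ w + lapC Φ w * ‖φ w‖ ^ 2 : ℝ) : ℂ)) := iG.ofReal
  have j1 : Integrable (fun w => ((gA Φ φ w + lapC Φ w * ‖φ w‖ ^ 2 : ℝ) : ℂ) + fderiv ℝ F1 w 1) :=
    iGc.add i1
  have tot : ∫ w, ((4 * ‖Dop Φ φ w‖ ^ 2 : ℝ) : ℂ) =
      ∫ w, ((gA Φ φ w + lapC Φ w * ‖φ w‖ ^ 2 : ℝ) : ℂ) := by
    have : (fun w => ((4 * ‖Dop Φ φ w‖ ^ 2 : ℝ) : ℂ)) = fun w =>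
      (((gA Φ φ w + lapC Φ w * ‖φ w‖ ^ 2 : ℝ) : ℂ) + fderiv ℝ F1 w 1) +
        fderiv ℝ F2 w Complex.I := funext key'
    rw [this, integral_add j1 i2, integral_add iGc i1, e1, e2]
    ring
  rw [integral_complex_ofReal, integral_complex_ofReal] at tot
  have tot' : ∫ w, 4 * ‖Dop Φ φ w‖ ^ 2 = ∫ w, (gA Φ φ w + lapC Φ w * ‖φ w‖ ^ 2) := by
    exact_mod_cast tot
  rw [integral_const_mul] at tot'
  rw [r1, r2, ← tot']
  ring

theorem id : S_ID := id_

end Pool.Agent.Helper89.AB
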